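import Pool.Agent.K6.H43.BD.Main

/-!
# MP_0704bf_ag: Zilber-Pink for the variations of Hodge structure of the members of arbitrary
one-parameter families of tuples of elliptic curves, for all but finitely many of the parameters of
bounded degree

**The variations.** Let `K ⊂ ℂ` be a countable field, let `P` be a finite system of polynomials in
`s_1, …, s_N` with coefficients in `K[t]`, and let `A_i`, `B_i` (`i ≤ n`) be polynomials in
`s_1, …, s_N` with coefficients in `K[t]`. For `t ∈ ℂ` let `S_t ⊂ ℂ^N` be the set of the points `s` with
`P(s) = 0` and `4 A_i(s)³ + 27 B_i(s)² ≠ 0` for all `i` (`OnS`; the coefficients are evaluated at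
`t`). Over `S_t` there are the elliptic curves `E_i : y² = x³ + A_i x + B_i` and the polarizable
variation of Hodge structure `V_t = ⊕ R¹π_{i*} ℤ`. Its period map `Φ` to `Y(1)^n = ℂ^n` is given by the
`j`-invariants (`period`), `image` is `Φ(S_t)`, and `NoAtypicalHodge` says that every irreducible
constructible subset `W` of `Φ(S_t) ∩ Z`, `Z` a special subvariety, satisfies
`dim W + (n - m) ≤ dim Z`, so that, if `dim Φ(S_t) = m`, there is no atypical special subvariety of
`S_t` for `V_t`, except possibly those contained in the singular locus. (These are the definitions of
the starting file `TropicalWeierstrassFamilies`, with `0` torus coordinates. The constants of `Z` are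
special points or integral over the ring generated by a finite set `Γ` of numbers algebraic over
`K`.)

**Tropicalization.** Let `X` be a finite system of polynomials in `x_1, …, x_n`, `s_1, …, s_N` with
coefficients in `K[t]`, which vanish at all points `(Φ(s), s)`, `s ∈ S_t`. For `α ∈ ℂ` the set
`Trop α X` consists of the points `w` of `(ℚ ∪ {∞})^(n+N)` such that for every polynomial of the system
the minimum of the numbers `ord_α (coefficient) + β · w` is attained at two different exponents
`β` or is infinite. Let `D` be a finite set of numbers algebraic over `K`, such that for every type of
special subvarieties of `Y(1)^n` of dimension less than `n - m` there are at least `σ` elements `α` of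
`D` such that `Trop α X` contains no point compatible with the type (`Generic m σ X D`).

**Parameters of bounded degree.** Let `F` be a finite set of numbers algebraic over `K`, and let `E` be
a finite set of points of the projective line, outside of `D`. The parameters `t` are the numbers
algebraic of degree at most `d` over the field generated by `F` (`DegreeLE`), which are integral
relative to `E` over the ring generated by `F` (`IntegralOff`: `t` is integral if `∞ ∈ E`, and
`1 / (t - a)` is integral for `a ∈ E`).

**Theorem.** If `σ + |E| ≥ 2 d + 1` then for all but finitely many of these parameters `t` there is no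
atypical special subvariety of `S_t` in the above sense.

For `d = 1` the parameters are the elements of a finitely generated field (`E = ∅`, `σ = 3`), ring
(`E = {∞}`, `σ = 2`) or group of units (`E = {0, ∞}`, `σ = 1`), and this is the starting file
`TropicalWeierstrassFamilies`. For `d > 1` the parameters lie in infinitely many different fields: for
instance all algebraic numbers of degree at most `d` if `σ ≥ 2 d + 1`, all algebraic integers of degree
at most `d` if `σ ≥ 2 d`, and all algebraic units of degree at most `d` if `σ ≥ 2 d - 1` and `0 ∉ D`.
The number `2 d + 1` is the natural bound for the method: there can be infinitely many numbers of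
degree at most `d` which are integral relative to `2 d` points. Bounded degree was known for subsets
of `Y(1)^n` of the special form `c_i s_i = A_i(y) / B_i(y)`, with rational degenerate parameters and
degrees over `ℚ` (`MP_d83ecd_ag.BoundedDegreeParameters`); here the families are arbitrary, with the
tropical condition, the degenerate parameters are arbitrary algebraic numbers and the degrees are
over arbitrary finitely generated fields.

The proof: if `t` is exceptional, then there is a type such that for all `α ∈ D` which exclude it
`1 / (t - α)` is integral over `ℤ[t, W]`, `W` a fixed finite set (`member_good`). Then the quotients of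
the values of the minimal polynomial `f` of `t` at these `α` and at the points of `E` are units of a
fixed finitely generated ring (`quotients`). These values are linear forms in general position in the
`e + 1 ≤ d + 1` coefficients of `f`, and there are at least `2 d + 1` of them. By the theorem on
points at which linear forms in general position are units up to scaling (`subspaces` of
`Pool.Agent.K6.H79.ZP.Uni`, from the unit theorem for finitely generated rings) the polynomials `f` lie
in finitely many lines, and so there are only finitely many of them.
-/

set_option autoImplicit false

namespace Pool.Agent.Results.MP_0704bf_ag.BoundedDegreeParameters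

open MvPolynomial Pool.Agent.R424.TG Pool.Agent.K6.H43.BD
open Pool.Agent.Y152.RP.FamM (evalAt)

/-- Zilber-Pink for the variations of Hodge structure of the members of arbitrary one-parameter
families of `n`-tuples of elliptic curves: parameters of bounded degree. -/
theorem result (K : Subfield ℂ) [Countable K] (κ₀ κ : Type) [Finite κ] (n N m : ℕ)
    (P : κ₀ → MvPolynomial (Fin N) (Polynomial K))
    (A B : Fin n → MvPolynomial (Fin N) (Polynomial K))
    (X : κ → MvPolynomial ((Fin n ⊕ Fin 0) ⊕ Fin N) (Polynomial K))
    (hX : ∀ (t : ℂ) (s : Fin N → ℂ), OnS (evalAt K t) P A B (fun j : Fin 0 => j.elim0) s → ∀ q,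
      eval₂ (evalAt K t)
        (Sum.elim (period (evalAt K t) A B (fun j : Fin 0 => j.elim0) s) s) (X q) = 0)
    (D : Finset ℂ) (hD : ∀ α ∈ D, IsAlgebraic K α) (Γ : Finset ℂ)
    (hΓ : ∀ γ ∈ Γ, IsAlgebraic K γ) (F : Finset ℂ) (hF : ∀ z ∈ F, IsAlgebraic K z)
    (E : Finset (Option ℂ)) (hED : ∀ α ∈ D, some α ∉ E) (d σ : ℕ) (hσ : 2 * d + 1 ≤ σ + E.card)
    (hG : Generic m σ X D) :
    {t : ℂ | (DegreeLE (Subfield.closure (F : Set ℂ)) d t ∧ IntegralOff E (F : Set ℂ) t) ∧
      ¬ NoAtypicalHodge (algebraMap (Algebra.adjoin ℤ (Γ : Set ℂ)) ℂ) K m
        (image (evalAt K t) P A B fun j : Fin 0 => j.elim0)}.Finite := by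
  refine (boundedT K X D hD Γ hΓ F hF E hED d σ hσ hG).subset ?_
  rintro t ⟨ht, hno⟩
  exact ⟨ht, fun h => hno (noAtypicalHodge_of h (image_subset t P A B _ X (hX t)))⟩

end Pool.Agent.Results.MP_0704bf_ag.BoundedDegreeParameters
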