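import Pool.Agent.K6.H79.ZP.Main

/-!
# MP_0704bf_ag: Zilber-Pink for the variations of Hodge structure of the members of families over
parameter varieties of any dimension, for all parameters over a finitely generated field or ring
outside of a proper closed subset

**The parameters.** Let `𝒯 ⊂ P^s` be an irreducible projective variety, given by its homogeneous prime
ideal `𝔭 ⊂ ℂ[T_0, …, T_s]` (`InBase`; for `𝔭 = 0` it is `P^s`). Parameters are vectors
`t = (t_0, …, t_s)` of homogeneous coordinates of points of `𝒯`.

**The variations.** Let `K ⊂ ℂ` be a countable field, let `P` be a system of polynomials in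
`y_1, …, y_N` with coefficients in `K[T_0, …, T_s]`, and let `A_i`, `B_i` (`i ≤ n`) be such polynomials.
For a parameter `t` let `S_t ⊂ ℂ^N` be the set of the points `y` with `P(y) = 0` and
`4 A_i(y)³ + 27 B_i(y)² ≠ 0` for all `i` (`OnS`; the coefficients are evaluated at `t`). Over `S_t`
there are the elliptic curves `E_i : v² = u³ + A_i u + B_i` and the polarizable variation of Hodge
structure `V_t = ⊕ R¹π_{i*} ℤ` (on the smooth part of `S_t`, if `S_t` is not smooth). Every family
of `n`-tuples of elliptic curves over varieties `S_t` depending on parameters `t` is of this form
after shrinking the `S_t`. The quotient of the period domain is `Y(1)^n = ℂ^n` by the elliptic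
modular function `jj = j = E₄³ / Δ`, and the period map `Φ` is given by the `j`-invariants
`6912 A_i³ / (4 A_i³ + 27 B_i²)` (`period`). The Hodge subvarieties of `Γ \ D` are the special
subvarieties `Z` of `Y(1)^n` (`SpecialVariety`). (The constant coordinates are special points, or
more generally integral over the ring `ℤ[Γ]` generated by a given finite subset `Γ` of `K`.)

**Degenerations.** Let `E` be a finite system of polynomials in `x_1, …, x_n`, `y_1, …, y_N` with
coefficients in `K[T_0, …, T_s]` which vanish at all points `(Φ(y), y)`, `y ∈ S_t`, for all `t`, such
that the coefficients of each of them are homogeneous of the same degree, and equal on `𝒯` to products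
of a nonzero constant and powers `∏_h G_h^(e_h)` of homogeneous polynomials `G_1, …, G_M` of degrees
`δ_h > 0` (for instance the irreducible factors of the coefficients). So the degenerate parameters
lie on the hypersurfaces `G_h = 0` of `𝒯`. For weights `a_h ≥ 0` of these hypersurfaces the
coefficients have the orders `∑_h a_h e_h`, and the tropicalization of the system consists of the
points `w` of `(ℚ ∪ {∞})^(n+N)` such that for every polynomial of the system the minimum of the
values of its monomials is attained twice or is infinite (`TropAt`). The special subvarieties of a
type `(cls, d)` (the partition `cls` of the nonconstant coordinates into `r` classes and the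
determinants `d_i` of the matrices) are excluded near to `G_l = 0` (`Excluded`), if for all weights
`a` with `a_l > 0`, such that the hypersurfaces `G_h = 0` with `a_h > 0` have a common point on `𝒯`
outside of the boundary (`Meet`), the tropicalization has no compatible point: `w_i ≥ 0` for the
constant coordinates, and for coordinates in the same class `w_i, w_j ≥ 0`, or `w_i, w_j < 0` and
`d_i d_j w_i w_j` is a square (`Compatible`; there are `0` torus coordinates here). The boundary is
the union of a given set `U` of the hypersurfaces, which may be empty. If `G_l = 0` does not meet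
the other hypersurfaces outside of the boundary, this is a condition only on the orders `e_l`
along `G_l = 0`; if they intersect there, it is a stronger condition at the intersections.

**Related hypersurfaces.** The forms `G_l`, `l ∈ J`, are called related on `𝒯` (`Related`), if there is
a polynomial relation between them on `𝒯` in which one of the monomials is not proportional to any
other monomial on `𝒯`. Examples: `s + 2` different irreducible hypersurfaces of `P^s`; more generally
multiplicatively independent forms on `𝒯` of which there are at least `dim 𝒯 + 2`; three members
`g - c_i g'` of a pencil (two members and `g'`, if the boundary `U` contains `g'`); one form `G_l`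
which is not a monomial, together with the coordinates `T_0, …, T_s`.

**Theorem.** Let `F ⊂ K` be finite. Assume that for every type of dimension `r < n - m` the forms
`G_l`, such that `l ∈ U` or the type is excluded near to `G_l = 0`, are related on `𝒯` (`GenericB`).
Then there is a polynomial `Ψ` in `T_0, …, T_s` which does not vanish on `𝒯` (`Ψ ∉ 𝔭`), such that for
all parameters `t ∈ 𝒯` with coordinates in the field generated by `F`, which are integral points of
the complement of the boundary (`IntegralAt`: `t_i^(δ_l) / G_l(t)` is in the ring generated by `F`
for `l ∈ U`), with `G_h(t) ≠ 0` for all `h` and `Ψ(t) ≠ 0`, the period image `Φ(S_t)` has no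
atypical intersection with Hodge subvarieties: every irreducible constructible subset `W` of
`Φ(S_t) ∩ Γ' \ D'` satisfies `dim W + (n - m) ≤ dim Γ' \ D'` (`NoAtypicalHodge`). If
`m = dim Φ(S_t)` this says that `codim Φ(Z) ≥ codim Φ(S_t) + codim Γ' \ D'` for all special
subvarieties `Z` of `S_t` for `V_t`: there is no atypical special subvariety, except possibly those in
the singular locus `S^sing`.

So the conclusion holds for all points `t` of `𝒯` over a finitely generated field outside of a proper
closed subset, if `U` is empty; for all integral points `t ∈ R^s` of affine space over a finitely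
generated ring `R` outside of a proper closed subset, if `𝒯 = P^s` and `U` is the hyperplane at
infinity; and for all `t ∈ (R^×)^s` outside of a proper closed subset, if `U` consists of the
coordinate hyperplanes; in the last case one hypersurface for every type is enough. As the theorem
can be applied again to the components of the exceptional set, the components of the Zariski closure
of the set of the exceptional parameters are varieties on which the forms are not related for some
type.

The starting files have one parameter, random parameters (`RandomWeierstrassFamilies`), or integral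
parameters in boxes outside of a thin set (`ThinParameters`).

The proof: if the type is excluded near to `G_l = 0`, then an atypical intersection of this type is
only possible if `t` is not near to `G_l = 0` at all places outside of a finite set (by the projective
Nullstellensatz and the comparison of the values of isogenous Tate curves). If this holds for all
`l ∈ J`, then the quotients of the products of powers of the `G_l(t)` of the same degree are units of
a fixed finitely generated ring; by the theorem on linear relations between such units the points
`t` with this property are not Zariski dense, if the forms are related.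
-/

set_option autoImplicit false

namespace Pool.Agent.Results.MP_0704bf_ag.FamiliesOverVarieties

open MvPolynomial Pool.Agent.R424.TG Pool.Agent.K6.H79.ZP

/-- Zilber-Pink for the variations of Hodge structure of the members of families of `n`-tuples of
elliptic curves over a projective variety, outside of a proper closed subset. -/
theorem result (K : Subfield ℂ) [Countable K] (κ₀ κ : Type) [Finite κ] (n N m s M : ℕ)
    (𝔭 : Ideal (MvPolynomial (Fin (s + 1)) ℂ)) (hprime : 𝔭.IsPrime)
    (h𝔭 : ∀ p ∈ 𝔭, ∀ i, homogeneousComponent i p ∈ 𝔭)
    (P : κ₀ → MvPolynomial (Fin N) (MvPolynomial (Fin (s + 1)) K))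
    (A B : Fin n → MvPolynomial (Fin N) (MvPolynomial (Fin (s + 1)) K))
    (E : κ → MvPolynomial ((Fin n ⊕ Fin 0) ⊕ Fin N) (MvPolynomial (Fin (s + 1)) K))
    (hE : ∀ (t : Fin (s + 1) → ℂ) (y : Fin N → ℂ), InBase 𝔭 t →
      OnS (evalT t) P A B (fun j : Fin 0 => j.elim0) y → ∀ q,
        eval₂ (evalT t) (Sum.elim (period (evalT t) A B (fun j : Fin 0 => j.elim0) y) y) (E q) = 0)
    (hhom : ∀ q, ∃ ε, ∀ β ∈ (E q).support, ((E q).coeff β).IsHomogeneous ε)
    (G : Fin M → MvPolynomial (Fin (s + 1)) K) (δ : Fin M → ℕ) (hδ : ∀ h, 0 < δ h)
    (hG : ∀ h, (G h).IsHomogeneous (δ h))
    (e : Fin M → κ → (((Fin n ⊕ Fin 0) ⊕ Fin N) →₀ ℕ) → ℕ)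
    (hfac : ∀ q, ∀ β ∈ (E q).support, ∃ c : K, c ≠ 0 ∧
      map (algebraMap K ℂ) ((E q).coeff β - C c * ∏ h, G h ^ e h q β) ∈ 𝔭)
    (Γ F : Finset ℂ) (hΓ : ∀ γ ∈ Γ, γ ∈ K) (hF : ∀ z ∈ F, z ∈ K) (U : Finset (Fin M))
    (hgen : GenericB m (fun q => (E q).support) e 𝔭 G U) :
    ∃ Ψ : MvPolynomial (Fin (s + 1)) ℂ, Ψ ∉ 𝔭 ∧ ∀ t : Fin (s + 1) → ℂ, InBase 𝔭 t →
      (∀ i, t i ∈ Subfield.closure (F : Set ℂ)) → (∀ h, evalT t (G h) ≠ 0) →
      IntegralAt G δ U (Subring.closure (F : Set ℂ)) t → eval t Ψ ≠ 0 →
      NoAtypicalHodge (algebraMap (Algebra.adjoin ℤ (Γ : Set ℂ)) ℂ) K m
        (image (evalT t) P A B fun j : Fin 0 => j.elim0) := by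
  obtain ⟨Ψ, h1, h2⟩ := familyB (m := m) K 𝔭 hprime h𝔭 E hhom G δ hδ hG e hfac Γ F hΓ hF U hgen
  refine ⟨Ψ, h1, fun t htb ht ht0 htU hΨ => ?_⟩
  by_contra hno
  refine hΨ (h2 t htb ht ht0 htU fun h => hno ?_)
  exact noAtypicalHodge_of h (image_memberM t P A B _ E fun y hy => hE t y htb hy)

end Pool.Agent.Results.MP_0704bf_ag.FamiliesOverVarieties
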