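import Pool.Agent.K6.H43.ZL.Lines

/-!
# MP_0704bf_ag: Zilber-Pink for variations of Hodge structure in families with several parameters in
arbitrary finitely generated fields: finitely many exceptional members on each line outside of one
hypersurface

**The variations.** Let `K ⊂ ℂ` be a countable field, `P` a system of polynomials in `y_1, …, y_N`, and
`A_i`, `B_i` (`i ≤ n`) polynomials in `y_1, …, y_N`, with coefficients in `K[t_1, …, t_s][t_0]`. For
complex numbers `t_0` and `t = (t_1, …, t_s)` let `S_{t_0, t} ⊂ ℂ^N` be the set of the points `y` with
`P(y) = 0` and `4 A_i(y)³ + 27 B_i(y)² ≠ 0` for all `i` (`OnS`; the coefficients are evaluated by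
`valueAt K t_0 t`). Over `S_{t_0, t}` there are the elliptic curves `E_i : y² = x³ + A_i x + B_i` and the
polarizable variation of Hodge structure `⊕ R¹π_{i*} ℤ`. Its period map `Φ` to `Y(1)^n = ℂ^n` is given
by the `j`-invariants (`period`), `image` is `Φ(S_{t_0, t})`, and `NoAtypicalHodge` says that every
irreducible constructible subset `W` of `Φ(S) ∩ Z`, `Z` a special subvariety, satisfies
`dim W + (n - m) ≤ dim Z`, so that, if `dim Φ(S) = m`, there is no atypical special subvariety of
`S = S_{t_0, t}`, except possibly those contained in the singular locus `S^sing`. (These are definitions
of the starting file `TropicalWeierstrassFamilies`, with `0` torus coordinates; the constants of `Z`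
are special points or integral over the ring generated by a finite set `Γ` of algebraic numbers.)

**Tropicalizations at hypersurfaces.** Let `E` be a finite system of polynomials which vanish at all
points `(Φ(y), y)`, `y ∈ S_{t_0, t}`, with coefficients in `K[t_1, …, t_s][t_0]`. Let `h_1, …, h_M` be
polynomials in `K[t_1, …, t_s][t_0]` without multiple factors and pairwise without common factors of
positive degree in `t_0` (`Coprime`), such that each coefficient `c` of `E` has an order `e_l(c)` along
`h_l = 0`: `c = h_l ^ e_l(c) · g`, where `g` has no common factor of positive degree in `t_0` with `h_l`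
(`Order`; for irreducible `h_l` this is true for all `c ≠ 0`). The tropicalization along `h_l` is the
set of the `w` in `(ℚ ∪ {∞})^(n + N)` such that for every polynomial of the system the minimum of the
numbers `e_l (coefficient) + β · w` is attained at two different exponents `β` or is infinite
(`TropAt`). The condition `GenericDegree m σ` says that for every type of special subvarieties of
`Y(1)^n` of dimension less than `n - m` (`Compatible`) those hypersurfaces `h_l = 0` for which no point of
the tropicalization along `h_l` is compatible with the type have together at least the degree `σ` in
`t_0`.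

**Theorem.** There is ONE polynomial `R ≠ 0` in `K[t_1, …, t_s]` such that for ALL complex vectors
`t = (t_1, …, t_s)` with `R(t) ≠ 0` (algebraic or transcendental), the one-parameter family
`(S_{x, t})_x` has only finitely many members with atypical special subvarieties in the above sense,
where `x` runs through
* any finitely generated ring of numbers algebraic over `K(t_1, …, t_s)`, if `GenericDegree m 2` holds,
* any finitely generated field of numbers algebraic over `K(t_1, …, t_s)`, if `GenericDegree m 3`
  holds.

For example let `F` be any finitely generated field of characteristic zero. Then the set of all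
exceptional parameters in `F^(1 + s)` is contained in the union of the hypersurface `R = 0` and of a
set with finitely many points on each line in the direction of `t_0`. (By a change of variables one
gets lines, or curves, in all directions: the parameters `t_i` can be replaced by the coefficients of
arbitrary parametrized curves.)

`TropicalWeierstrassFamilies` is about a single one-parameter family, with a condition on its
tropicalizations at points; here the condition is one on the generic point, and the theorem is about
all specialisations outside of one explicit hypersurface. The starting files with several parameters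
(`ThinParameters`, `MetricSequences` of this problem and `ManyParameters` of MP_e573c6_ag) are about
rational integers outside of sets of density zero, or of size `B ^ (s + ε)` in boxes.

Proof. `R` is the product of leading coefficients, discriminants and resultants. If `R(t) ≠ 0` then
the roots of all the `h_l(·, t)` are simple and different from each other, and the order of each
coefficient at each of them is the order along `h_l`. So the tropicalizations of the one-parameter
family at these roots are the given ones, and `familyT` (the theorem behind
`TropicalWeierstrassFamilies`) applies over the countable field `K(t_1, …, t_s)`.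
-/

set_option autoImplicit false

namespace Pool.Agent.Results.MP_0704bf_ag.FiniteOnLines

open MvPolynomial Pool.Agent.R424.TG Pool.Agent.K6.H43.ZL

theorem result (K : Subfield ℂ) [Countable K] (κ₀ κ : Type) [Finite κ] (s n N m M : ℕ)
    (P : κ₀ → MvPolynomial (Fin N) (Polynomial (MvPolynomial (Fin s) K)))
    (A B : Fin n → MvPolynomial (Fin N) (Polynomial (MvPolynomial (Fin s) K)))
    (E : κ → MvPolynomial ((Fin n ⊕ Fin 0) ⊕ Fin N) (Polynomial (MvPolynomial (Fin s) K)))
    (hE : ∀ (x : ℂ) (t : Fin s → ℂ) (y : Fin N → ℂ),
      OnS (R := Polynomial (MvPolynomial (Fin s) K)) (valueAt K x t) P A B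
        (fun j : Fin 0 => j.elim0) y → ∀ q,
        eval₂ (valueAt K x t) (Sum.elim (period (R := Polynomial (MvPolynomial (Fin s) K))
          (valueAt K x t) A B (fun j : Fin 0 => j.elim0) y) y) (E q) = 0)
    (h : Fin M → Polynomial (MvPolynomial (Fin s) K))
    (hsep : ∀ l, Coprime (h l) (Polynomial.derivative (h l)))
    (hpair : ∀ l l', l ≠ l' → Coprime (h l) (h l'))
    (e : Fin M → κ → (((Fin n ⊕ Fin 0) ⊕ Fin N) →₀ ℕ) → ℕ)
    (he : ∀ l q, ∀ β ∈ (E q).support, Order (h l) ((E q).coeff β) (e l q β)) :
    ∃ R : MvPolynomial (Fin s) K, R ≠ 0 ∧ ∀ t : Fin s → ℂ, valueT K t R ≠ 0 →
      ∀ σ : ℕ, GenericDegree m σ (fun q => (E q).support) h e →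
      ∀ Γ : Finset ℂ, (∀ γ ∈ Γ, IsAlgebraic (fieldAt K t) γ) →
      ∀ F : Finset ℂ, (∀ z ∈ F, IsAlgebraic (fieldAt K t) z) →
        {x : ℂ | x ∈ generated σ F ∧
          ¬ NoAtypicalHodge (algebraMap (Algebra.adjoin ℤ (Γ : Set ℂ)) ℂ) (fieldAt K t) m
            (image (R := Polynomial (MvPolynomial (Fin s) K)) (valueAt K x t) P A B
              fun j : Fin 0 => j.elim0)}.Finite :=
  linesT P A B _ E hE h hsep hpair e he

end Pool.Agent.Results.MP_0704bf_ag.FiniteOnLines
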