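import Pool.Agent.K6.H43.ZL.Loc

/-!
# MP_0704bf_ag: Zilber-Pink for variations of Hodge structure in families with several integral
parameters: a uniform bound for the number of the exceptional members on lines

**The variations.** Let `P` be a system of polynomials in `y_1, …, y_N`, and `A_i`, `B_i` (`i ≤ n`)
polynomials in `y_1, …, y_N`, with coefficients in `ℤ[t_1, …, t_s][t_0]`. For integers `t_0` and
`t = (t_1, …, t_s)` let `S_{t_0, t} ⊂ ℂ^N` be the set of the points `y` with `P(y) = 0` and
`4 A_i(y)³ + 27 B_i(y)² ≠ 0` for all `i` (`OnS`; the coefficients are evaluated by `valueZ t_0 t`). Over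
`S_{t_0, t}` there are the elliptic curves `E_i : y² = x³ + A_i x + B_i` and the polarizable variation of
Hodge structure `⊕ R¹π_{i*} ℤ`. Its period map `Φ` to `Y(1)^n = ℂ^n` is given by the `j`-invariants
(`period`), `image` is `Φ(S_{t_0, t})`, and `NoAtypicalHodge` says that every irreducible constructible
subset `W` of `Φ(S) ∩ Z`, `Z` a special subvariety, satisfies `dim W + (n - m) ≤ dim Z`, so that, if
`dim Φ(S) = m`, there is no atypical special subvariety of `S = S_{t_0, t}`, except possibly those
contained in the singular locus `S^sing`. (These are definitions of the starting file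
`TropicalWeierstrassFamilies`, with `0` torus coordinates; the constants of `Z` are special points or
integral over the ring generated by a finite set `Γ` of algebraic numbers.)

**The condition.** Let `E` be a finite system of polynomials which vanish at all points `(Φ(y), y)`,
`y ∈ S_{t_0, t}`, with coefficients in `ℤ[t_1, …, t_s][t_0]`. Let `h_1, …, h_M` be polynomials in
`ℤ[t_1, …, t_s][t_0]` of positive degree in `t_0`, such that each coefficient `c` of `E` has an order
`e_l(c)` along `h_l = 0`: `c = h_l ^ e_l(c) · g`, where `g` has no common factor of positive degree in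
`t_0` with `h_l` (`HasOrd`). The tropicalization along `h_l` is the set of the `w` in
`(ℚ ∪ {∞})^(n + N)` such that for every polynomial of the system the minimum of the numbers
`e_l (coefficient) + β · w` is attained at two different exponents `β` or is infinite (`TropAt`). The
condition `GenericOrders` says that for every type of special subvarieties of `Y(1)^n` of dimension
less than `n - m` there is an `l` such that no point of the tropicalization along `h_l` is compatible
with the type.

**Theorem.** There is ONE polynomial `R ≠ 0` in `ℤ[t_1, …, t_s]` such that for every `ε > 0` there is a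
constant `C` with the following property. For ALL integral vectors `t = (t_1, …, t_s)` with
`R(t) ≠ 0` and all `X ≥ 1` there are at most `C (X · size t) ^ ε` integers `x` with `|x| ≤ X` for which
`S_{x, t}` has atypical special subvarieties in the above sense. Here `size t = 1 + ∑ |t_i|`.

For a box `|t_0|, …, |t_s| ≤ B` this implies that at most `C' B ^ (s + ε)` of the members are
exceptional (the shape of the bound in `ManyParameters` of MP_e573c6_ag for subvarieties of `Y(1)^n`),
but the bound holds for every single line outside of `R = 0`, and for `|x| ≤ X` with any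
`X ≥ (size t) ^ δ`: so it gives bounds for boxes with sides of very different lengths, and for the
parameters `(x, t)`, `t ∈ T`, where `T` is ANY set of integral vectors outside of `R = 0`, however thin,
for instance points on a subvariety. The starting files `ThinParameters` and `MetricSequences` of
this problem treat almost all elements of special sequences of parameters, without a bound for the
number of exceptions.

Proof. Let `a h_l + b g = R_l(t)`. If `x` is exceptional then there is an `l` such that all prime factors
larger than `P₀` of `h_l(x, t)` divide `g(x, t)` and so `R_l(t) ≠ 0`. The number of the integers up to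
`Y = O((X · size t) ^ D)` composed of primes `≤ P₀` and of the prime factors of `R_l(t)` is
`O(Y ^ δ |R_l(t)| ^ δ)` by Rankin's trick, with a constant which does not depend on `t`. For the other `x`
the local criterion (`coreB` of the starting library) at places above `p > P₀`, `p ∣ h_l(x, t)`,
`p ∤ g(x, t)`, shows that there are no atypical special subvarieties.
-/

set_option autoImplicit false

namespace Pool.Agent.Results.MP_0704bf_ag.UniformCountOnLines

open MvPolynomial Pool.Agent.R424.TG Pool.Agent.R424.MP Pool.Agent.K6.H43.ZL

/-- The value of a polynomial in the parameters at the integral point `(x, t)`. -/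
noncomputable def valueZ {s : ℕ} (x : ℤ) (t : Fin s → ℤ) :
    Polynomial (MvPolynomial (Fin s) ℤ) →+* ℂ :=
  (Int.castRingHom ℂ).comp (ev x t)

theorem result (κ₀ κ : Type) [Finite κ] (s n N m M : ℕ)
    (P : κ₀ → MvPolynomial (Fin N) (Polynomial (MvPolynomial (Fin s) ℤ)))
    (A B : Fin n → MvPolynomial (Fin N) (Polynomial (MvPolynomial (Fin s) ℤ)))
    (E : κ → MvPolynomial ((Fin n ⊕ Fin 0) ⊕ Fin N) (Polynomial (MvPolynomial (Fin s) ℤ)))
    (hE : ∀ (x : ℤ) (t : Fin s → ℤ) (y : Fin N → ℂ),
      OnS (R := Polynomial (MvPolynomial (Fin s) ℤ)) (valueZ x t) P A B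
        (fun j : Fin 0 => j.elim0) y → ∀ q,
        eval₂ (valueZ x t) (Sum.elim (period (R := Polynomial (MvPolynomial (Fin s) ℤ))
          (valueZ x t) A B (fun j : Fin 0 => j.elim0) y) y) (E q) = 0)
    (h : Fin M → Polynomial (MvPolynomial (Fin s) ℤ)) (hdeg : ∀ l, 0 < (h l).natDegree)
    (e : Fin M → κ → (((Fin n ⊕ Fin 0) ⊕ Fin N) →₀ ℕ) → ℕ)
    (he : ∀ l q, ∀ β ∈ (E q).support, HasOrd (h l) ((E q).coeff β) (e l q β))
    (hgen : GenericOrders m (fun q => (E q).support) e)
    (K : Subfield ℂ) [Countable K] (Γ : Finset ℂ) (hΓ : ∀ γ ∈ Γ, IsAlgebraic ℚ γ)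
    (hΓK : ∀ γ ∈ Γ, γ ∈ K) :
    ∃ R : MvPolynomial (Fin s) ℤ, R ≠ 0 ∧ ∀ ε : ℝ, 0 < ε → ∃ C : ℝ,
      ∀ X : ℕ, 1 ≤ X → ∀ t : Fin s → ℤ, eval t R ≠ 0 →
        ({x : ℤ | |x| ≤ X ∧
          ¬ NoAtypicalHodge (algebraMap (Algebra.adjoin ℤ (Γ : Set ℂ)) ℂ) K m
            (image (R := Polynomial (MvPolynomial (Fin s) ℤ)) (valueZ x t) P A B
              fun j : Fin 0 => j.elim0)}.ncard : ℝ) ≤
              C * ((X : ℝ) * size t) ^ ε := by
  obtain ⟨R, hR, hmain⟩ := fibT (m := m) K (fun q => (E q).support) (fun q β => (E q).coeff β) h
    hdeg e he hgen Γ hΓ hΓK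
  refine ⟨R, hR, fun ε hε => ?_⟩
  obtain ⟨C, hC⟩ := hmain ε hε
  refine ⟨C, fun X hX t ht => le_trans ?_ (hC X hX t ht)⟩
  have hfin : {x : ℤ | |x| ≤ X}.Finite :=
    (Set.finite_Icc (-(X : ℤ)) X).subset fun x hx => Set.mem_Icc.2 (abs_le.1 hx)
  refine Nat.cast_le.2 (Set.ncard_le_ncard ?_ (hfin.subset fun x hx => hx.1))
  rintro x ⟨hx1, hx2⟩
  refine ⟨hx1, fun hno => hx2 (noAtypicalHodge_of hno ?_)⟩
  rintro z ⟨y, hy, rfl⟩
  refine ⟨fun j => hy.2.2 j, y, fun q => ?_⟩
  have h1 := hE x t y hy q
  rw [eval₂_eq'] at h1
  exact h1

end Pool.Agent.Results.MP_0704bf_ag.UniformCountOnLines
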